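import Pool.Agent.H547.C9.Stm

set_option autoImplicit false

/-!
# S_a: the sums of (21 k + 8) C(2k,k)^3
-/

namespace Pool.Agent.H120.C9

open Finset Pool.Agent.R439.PL Pool.Agent.H547.C9

/-- `∑_{k<N} C(N+k-1,k)²` -/
def Tn (N : ℕ) : ℕ := ∑ k ∈ range N, ((N + k - 1).choose k) ^ 2

theorem tele (M K : ℕ) :
    ∑ k ∈ range K, (8 * (2 * (M : ℚ) + 3) * ((M + 1 + k).choose k : ℚ) ^ 2 -
      4 * ((M : ℚ) + 1) * ((M + k).choose k : ℚ) ^ 2) =
    (8 * (K : ℚ) + 12 * ((M : ℚ) + 1)) * (((M + K).choose K : ℚ) * K / ((M : ℚ) + 1)) ^ 2 := by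
  induction K with
  | zero => simp
  | succ k ih =>
    rw [sum_range_succ, ih]
    have hM : (M : ℚ) + 1 ≠ 0 := by positivity
    have hA : ((M + (k + 1)).choose (k + 1) : ℚ) * ((k : ℚ) + 1) =
        ((M + k).choose k : ℚ) * ((M : ℚ) + k + 1) := by
      have h := Nat.add_one_mul_choose_eq (M + k) k
      have h2 : (((M + k + 1) * (M + k).choose k : ℕ) : ℚ) =
        (((M + k + 1).choose (k + 1) * (k + 1) : ℕ) : ℚ) := by rw [h]
      push_cast at h2
      have e : M + (k + 1) = M + k + 1 := rfl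
      rw [e]
      linarith [h2]
    have hB : ((M + 1 + k).choose k : ℚ) = ((M + k).choose k : ℚ) * ((M : ℚ) + k + 1) / ((M : ℚ) + 1) := by
      rw [eq_div_iff hM]
      have h := Nat.choose_mul_succ_eq (M + k) k
      have e : M + k + 1 - k = M + 1 := by omega
      rw [e] at h
      have h2 : (((M + k).choose k * (M + k + 1) : ℕ) : ℚ) =
        (((M + k + 1).choose k * (M + 1) : ℕ) : ℚ) := by rw [h]
      push_cast at h2
      have e2 : M + 1 + k = M + k + 1 := by omega
      rw [e2]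
      linarith [h2]
    rw [hB]
    push_cast
    rw [hA]
    field_simp
    ring

theorem stepT (M : ℕ) :
    8 * (2 * (M : ℚ) + 3) * (Tn (M + 2) : ℚ) - 4 * ((M : ℚ) + 1) * (Tn (M + 1) : ℚ) =
      (21 * ((M : ℚ) + 1) + 8) * (Nat.centralBinom (M + 1) : ℚ) ^ 2 := by
  have hM : (M : ℚ) + 1 ≠ 0 := by positivity
  have h1 : (Tn (M + 1) : ℚ) = ∑ k ∈ range (M + 1), ((M + k).choose k : ℚ) ^ 2 := by
    unfold Tn
    push_cast
    refine sum_congr rfl fun k _ => ?_
    have e : M + 1 + k - 1 = M + k := by omega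
    rw [e]
  have h2 : (Tn (M + 2) : ℚ) = (∑ k ∈ range (M + 1), ((M + 1 + k).choose k : ℚ) ^ 2) +
      (Nat.centralBinom (M + 1) : ℚ) ^ 2 := by
    unfold Tn
    rw [sum_range_succ]
    push_cast
    congr 1
    · refine sum_congr rfl fun k _ => ?_
      have e : M + 2 + k - 1 = M + 1 + k := by omega
      rw [e]
    · have e : M + 2 + (M + 1) - 1 = 2 * (M + 1) := by omega
      rw [e, Nat.centralBinom_eq_two_mul_choose]
  have h3 := tele M (M + 1)
  rw [sum_sub_distrib, ← mul_sum, ← mul_sum] at h3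
  have h4 : (Nat.centralBinom (M + 1) : ℚ) = 2 * ((M + (M + 1)).choose (M + 1) : ℚ) := by
    have h := Nat.choose_mul_succ_eq (M + (M + 1)) (M + 1)
    have e : M + (M + 1) + 1 - (M + 1) = M + 1 := by omega
    rw [e] at h
    have h5 : (((M + (M + 1)).choose (M + 1) * (M + (M + 1) + 1) : ℕ) : ℚ) =
        (((M + (M + 1) + 1).choose (M + 1) * (M + 1) : ℕ) : ℚ) := by rw [h]
    push_cast at h5
    rw [Nat.centralBinom_eq_two_mul_choose]
    have e2 : 2 * (M + 1) = M + (M + 1) + 1 := by omega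
    rw [e2]
    apply mul_right_cancel₀ hM
    linarith [h5]
  rw [h2, h1, mul_add]
  have h6 : (8 * (((M + 1 : ℕ) : ℚ)) + 12 * ((M : ℚ) + 1)) *
      (((M + (M + 1)).choose (M + 1) : ℚ) * ((M + 1 : ℕ) : ℚ) / ((M : ℚ) + 1)) ^ 2 =
      5 * ((M : ℚ) + 1) * (Nat.centralBinom (M + 1) : ℚ) ^ 2 := by
    rw [h4]
    push_cast
    field_simp
    ring
  rw [h6] at h3
  linarith [h3]

theorem exact_id (N : ℕ) :
    SU 21 8 1 N = 4 * (N : ℚ) * ((Nat.centralBinom N * Tn N : ℕ) : ℚ) := by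
  induction N with
  | zero => simp [SU]
  | succ N ih =>
    have hs : SU 21 8 1 (N + 1) = SU 21 8 1 N + (21 * (N : ℚ) + 8) *
        (Nat.centralBinom N : ℚ) ^ 3 := by
      unfold SU
      rw [sum_range_succ, one_pow, mul_one]
    have hc : ((N : ℚ) + 1) * (Nat.centralBinom (N + 1) : ℚ) =
        2 * (2 * (N : ℚ) + 1) * (Nat.centralBinom N : ℚ) := by
      have h := Nat.succ_mul_centralBinom_succ N
      have h2 : (((N + 1) * (N + 1).centralBinom : ℕ) : ℚ) =
        ((2 * (2 * N + 1) * N.centralBinom : ℕ) : ℚ) := by rw [h]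
      push_cast at h2
      exact h2
    rw [hs, ih]
    push_cast
    rcases N with _ | M
    · have e1 : Tn 1 = 1 := by decide
      have e2 : Nat.centralBinom 1 = 2 := by decide
      have e3 : Nat.centralBinom 0 = 1 := by decide
      have e4 : Tn 0 = 0 := by decide
      norm_num [e1, e2, e3, e4]
    · have h3 := stepT M
      have h5 : 4 * (((M + 1 : ℕ) : ℚ) + 1) * (((M + 1 + 1).centralBinom : ℚ) *
          (Tn (M + 1 + 1) : ℚ)) = 4 * (((((M + 1 : ℕ) : ℚ) + 1) *
            ((M + 1 + 1).centralBinom : ℚ)) * (Tn (M + 1 + 1) : ℚ)) := by ring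
      rw [h5, hc]
      have e : M + 1 + 1 = M + 2 := rfl
      rw [e]
      push_cast
      have h6 : (21 * ((M : ℚ) + 1) + 8) * ((M + 1).centralBinom : ℚ) ^ 3 =
          ((21 * ((M : ℚ) + 1) + 8) * ((M + 1).centralBinom : ℚ) ^ 2) *
            ((M + 1).centralBinom : ℚ) := by ring
      rw [h6, ← h3]
      ring

variable {p : ℕ} [hp : Fact p.Prime]

theorem z_choose (N k : ℕ) (hN : p ∣ N) (hk : ¬ p ∣ k) (hN0 : 0 < N) :
    (((N + k - 1).choose k : ℕ) : ZMod p) = 0 := by
  rcases k with _ | j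
  · exact absurd (dvd_zero p) hk
  · rw [ZMod.natCast_eq_zero_iff]
    have e : N + (j + 1) - 1 = N + j := by omega
    rw [e]
    have h := Nat.choose_succ_right_eq (N + j) j
    have e2 : N + j - j = N := by omega
    rw [e2] at h
    have h2 : p ∣ (N + j).choose (j + 1) * (j + 1) := by
      rw [h]
      exact dvd_mul_of_dvd_right hN _
    rcases (Nat.Prime.dvd_mul hp.out).1 h2 with h3 | h3
    · exact h3
    · exact absurd h3 hk

theorem lucas (n k a b c d : ℕ) (h1 : n % p = a) (h2 : n / p = b) (h3 : k % p = c)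
    (h4 : k / p = d) : ((n.choose k : ℕ) : ZMod p) = ((a.choose c * b.choose d : ℕ) : ZMod p) := by
  have h := Choose.choose_modEq_choose_mod_mul_choose_div_nat (n := n) (k := k) (p := p)
  rw [h1, h2, h3, h4] at h
  exact (ZMod.natCast_eq_natCast_iff _ _ _).2 h

theorem T1 : ((Tn p : ℕ) : ZMod p) = 1 := by
  have hp0 := hp.out.pos
  unfold Tn
  rw [Nat.cast_sum, Finset.sum_eq_single 0]
  · simp
  · intro k hk hk0
    rw [Nat.cast_pow, z_choose p k dvd_rfl ?_ hp0]
    · norm_num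
    · intro h
      exact absurd (Nat.le_of_dvd (Nat.pos_of_ne_zero hk0) h) (not_le.2 (mem_range.1 hk))
  · intro h
    exact absurd (mem_range.2 hp0) h

theorem T2 : ((Tn (2 * p) : ℕ) : ZMod p) = 5 := by
  have hp0 := hp.out.pos
  unfold Tn
  rw [Nat.cast_sum]
  have hsub : ({0, p} : Finset ℕ) ⊆ range (2 * p) := by
    intro k hk
    rw [mem_insert, mem_singleton] at hk
    rw [mem_range]
    omega
  rw [← Finset.sum_subset hsub, Finset.sum_pair (by omega)]
  · have h1 : ((((2 * p + p - 1).choose p : ℕ)) : ZMod p) = 2 := by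
      have e1 : 2 * p + p - 1 = (p - 1) + p * 2 := by omega
      rw [lucas (2 * p + p - 1) p (p - 1) 2 0 1 ?_ ?_ ?_ ?_]
      · norm_num
      · rw [e1, Nat.add_mul_mod_self_left, Nat.mod_eq_of_lt (by omega)]
      · rw [e1, Nat.add_mul_div_left _ _ hp0, Nat.div_eq_of_lt (by omega)]
      · exact Nat.mod_self p
      · exact Nat.div_self hp0
    rw [Nat.cast_pow, Nat.cast_pow, h1]
    norm_num
  · intro k hk hk2
    rw [mem_range] at hk
    rw [mem_insert, mem_singleton] at hk2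
    rw [Nat.cast_pow, z_choose (2 * p) k (dvd_mul_left p 2) ?_ (by omega)]
    · norm_num
    · rintro ⟨c, rfl⟩
      apply hk2
      have hc : c < 2 := by
        by_contra hcon
        push Not at hcon
        have := Nat.mul_le_mul_left p hcon
        omega
      interval_cases c
      · left; omega
      · right; omega

theorem cb1 : ((Nat.centralBinom p : ℕ) : ZMod p) = 2 := by
  have hp0 := hp.out.pos
  rw [Nat.centralBinom_eq_two_mul_choose, lucas (2 * p) p 0 2 0 1]
  · norm_num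
  · exact Nat.mul_mod_left 2 p
  · exact Nat.mul_div_cancel 2 hp0
  · exact Nat.mod_self p
  · exact Nat.div_self hp0

theorem cb2 : ((Nat.centralBinom (2 * p) : ℕ) : ZMod p) = 6 := by
  have hp0 := hp.out.pos
  rw [Nat.centralBinom_eq_two_mul_choose, lucas (2 * (2 * p)) (2 * p) 0 4 0 2]
  · have : Nat.choose 4 2 = 6 := by decide
    rw [this]
    norm_num
  · rw [← mul_assoc]
    exact Nat.mul_mod_left _ p
  · rw [← mul_assoc]
    exact Nat.mul_div_cancel _ hp0
  · exact Nat.mul_mod_left 2 p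
  · exact Nat.mul_div_cancel 2 hp0

theorem fin (A : ℕ) (c d : ℕ) (h : (A : ZMod p) = (c : ZMod p)) :
    I p 2 (4 * (((d * p : ℕ)) : ℚ) * (A : ℚ) - ((4 * d * c : ℕ) : ℚ) * p) := by
  have h1 : ((p : ℤ)) ∣ (A : ℤ) - (c : ℤ) := by
    rw [← ZMod.intCast_zmod_eq_zero_iff_dvd]
    push_cast
    rw [h, sub_self]
  obtain ⟨e, he⟩ := h1
  have h2 : (A : ℚ) = (c : ℚ) + p * (e : ℚ) := by
    have h3 : (A : ℤ) = (c : ℤ) + p * e := by linarith
    have h4 : ((A : ℤ) : ℚ) = (((c : ℤ) + p * e : ℤ) : ℚ) := by rw [h3]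
    push_cast at h4
    exact h4
  refine ⟨((4 * d * e : ℤ) : ℚ), int_mem _, ?_⟩
  rw [h2]
  push_cast
  ring

theorem t_a : Pool.Agent.H547.C9.S_a := by
  intro p _ _
  constructor
  · have h := fin (p := p) (Nat.centralBinom p * Tn p) 2 1 (by
      rw [Nat.cast_mul, cb1, T1]
      norm_num)
    rw [exact_id]
    have e1 : 1 * p = p := one_mul p
    rw [e1] at h
    refine Pool.Agent.H547.icg h ?_
    norm_num
  · have h := fin (p := p) (Nat.centralBinom (2 * p) * Tn (2 * p)) 30 2 (by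
      rw [Nat.cast_mul, cb2, T2]
      norm_num)
    rw [exact_id]
    refine Pool.Agent.H547.icg h ?_
    norm_num

theorem a : Pool.Agent.H547.C9.S_a := t_a

end Pool.Agent.H120.C9
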